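import Pool.Agent.MP_3a8b9a_co.Final

namespace Pool.Agent.Results.MP_3a8b9a_co.SubtreeFails

open Pool.Agent.MP_3a8b9a_co

/-- There are a connected non-trivial bigraph `G`, a reflective tree decomposition `T` of `G` whose
core `C₂(G|_U)` weakly dominates `G|_{U₁ ∩ U₂}` for every edge `{U₁, U₂}` of `T`, and the vertex
set `𝒱` of a subtree of `T`, such that `G` does not weakly dominate the sub-bigraph induced on the
union of the bags in `𝒱`. -/
theorem result : ∃ (G : Bigraph) (T : ReflectiveTreeDecomposition G) (𝒱 : Finset T.ι),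
    G.toSimpleGraph.Connected ∧ G.E.Nonempty ∧
    (∀ i j : T.ι, T.tree.Adj i j → ∀ k : T.ι,
      WeaklyDominates (G.induce (G.relCore (T.bag k) ∅)) (G.induce (T.bag i ∩ T.bag j))) ∧
    𝒱.Nonempty ∧ (T.tree.induce (𝒱 : Set T.ι)).Connected ∧
    ¬ WeaklyDominates G (G.induce (𝒱.biUnion T.bag)) := by
  refine ⟨GG, TT, VV, GG_connected, ⟨((0, 1) : Fin 9 × Fin 9), by decide⟩, hyp, 
    ⟨(0 : Fin 4), show (0 : Fin 4) ∈ VV by decide⟩, ?_, not_dominates⟩
  have h : ((VV : Finset (Fin 4)) : Set (Fin 4)) = ({0, 1, 2} : Set (Fin 4)) := by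
    simp [VV]
  have h2 : (star.induce ((VV : Finset (Fin 4)) : Set (Fin 4))).Connected := by
    rw [h]
    exact subtree_connected
  exact h2

end Pool.Agent.Results.MP_3a8b9a_co.SubtreeFails
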